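import Pool.Agent.H642.KK.Stm2
import Pool.Graph.R_seed8.H812R3.CantorChar

/-! # Project KK (helper642): spaces of the three types are stable (STB) -/

set_option autoImplicit false

open Set TopologicalSpace
open Pool.Agent.H642.CK (Io)
open Pool.Agent.H642.KK

namespace Pool.Agent.H155.KK

section sub

variable {Z : Type} [TopologicalSpace Z]

theorem io_sub {A : Set Z} (hA : IsOpen A) (x : A) : Io x ↔ Io x.1 := by
  unfold Io
  constructor
  · intro h
    have h1 := hA.isOpenMap_subtype_val _ h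
    rwa [image_singleton] at h1
  · intro h
    have h1 := h.preimage (continuous_subtype_val (p := fun y => y ∈ A))
    have h2 : (Subtype.val : A → Z) ⁻¹' {x.1} = {x} := by
      ext y
      simp only [mem_preimage, mem_singleton_iff]
      exact ⟨fun h => Subtype.ext h, fun h => by rw [h]⟩
    rwa [h2] at h1

theorem l2_sub {A : Set Z} (hA : IsOpen A) (x : A) : x ∈ L2 A ↔ x.1 ∈ L2 Z := by
  constructor
  · intro h U hU hx
    obtain ⟨y, hy, hne, hio⟩ := h (Subtype.val ⁻¹' U) (hU.preimage continuous_subtype_val) hx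
    exact ⟨y.1, hy, fun e => hne (Subtype.ext e), fun e => hio ((io_sub hA y).2 e)⟩
  · intro h U hU hx
    obtain ⟨y, ⟨y', hy', rfl⟩, hne, hio⟩ := h (Subtype.val '' U) (hA.isOpenMap_subtype_val _ hU)
      ⟨x, hx, rfl⟩
    exact ⟨y', hy', fun e => hne (by rw [e]), fun e => hio ((io_sub hA y').1 e)⟩

theorem nio_of_l2 {x : Z} (h : x ∈ L2 Z) : ¬ Io x := by
  intro hio
  obtain ⟨y, hy, hne, -⟩ := h {x} hio rfl
  exact hne hy

theorem nt_sub (h : NT Z) {A : Set Z} (hA : IsOpen A) (hne : (A ∩ L2 Z).Nonempty) : NT A := by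
  refine ⟨?_, ?_, ?_⟩
  · rintro U hU ⟨x, hx⟩
    obtain ⟨y, ⟨y', hy', rfl⟩, hio⟩ := h.dense (Subtype.val '' U) (hA.isOpenMap_subtype_val _ hU)
      ⟨x.1, x, hx, rfl⟩
    exact ⟨y', hy', (io_sub hA y').2 hio⟩
  · intro x hx
    exact (l2_sub hA x).2 (h.perf x.1 (fun e => hx ((io_sub hA x).2 e)))
  · obtain ⟨x, hxA, hx⟩ := hne
    exact ⟨⟨x, hxA⟩, fun e => nio_of_l2 hx ((io_sub hA ⟨x, hxA⟩).1 e)⟩

theorem nt2_sub (h : NT2 Z) {A : Set Z} (hA : IsOpen A) (hne : (A ∩ L2 Z).Nonempty) : NT2 A := by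
  refine ⟨?_, ?_, ?_⟩
  · intro x hx U hU hxU
    obtain ⟨y, ⟨y', hy', rfl⟩, hio, hl⟩ := h.r1 x.1 ((l2_sub hA x).1 hx) (Subtype.val '' U)
      (hA.isOpenMap_subtype_val _ hU) ⟨x, hxU, rfl⟩
    exact ⟨y', hy', fun e => hio ((io_sub hA y').1 e), fun e => hl ((l2_sub hA y').1 e)⟩
  · intro x hx U hU hxU
    obtain ⟨y, ⟨y', hy', rfl⟩, hio, hl⟩ := h.perf x.1 ((l2_sub hA x).1 hx) (Subtype.val '' U)
      (hA.isOpenMap_subtype_val _ hU) ⟨x, hxU, rfl⟩
    exact ⟨y', hy', fun e => hio (by rw [e]), (l2_sub hA y').2 hl⟩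
  · obtain ⟨x, hxA, hx⟩ := hne
    exact ⟨⟨x, hxA⟩, (l2_sub hA ⟨x, hxA⟩).2 hx⟩

end sub

/-- the characterisation of the Cantor set -/
theorem cantor_of (Z : Type) [TopologicalSpace Z] [CompactSpace Z] [T2Space Z]
    [SecondCountableTopology Z] [TotallyDisconnectedSpace Z] [Nonempty Z] (h : ∀ x : Z, ¬ Io x) :
    Nonempty (Z ≃ₜ (ℕ → Bool)) := by
  classical
  have hc : Countable (Clopens Z) := Clopens.countable_iff_secondCountable.2 inferInstance
  obtain ⟨A, hA⟩ := exists_surjective_nat (Clopens Z)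
  refine Pool.Agent.H812R3.CantorChar.cantor_char (fun z n => decide (z ∈ A n)) ?_ ?_ ?_
  · refine continuous_pi (fun n => ?_)
    rw [continuous_bool_rng true]
    have h1 : (fun z => decide (z ∈ A n)) ⁻¹' {true} = (A n : Set Z) := by
      ext z
      simp
    rw [h1]
    exact (A n).isClopen
  · intro x y hxy
    by_contra hne
    obtain ⟨U, hU, hx, hy⟩ := exists_isClopen_of_totally_separated hne
    obtain ⟨n, hn⟩ := hA ⟨U, hU⟩
    have h1 := congrFun hxy n
    have hx' : x ∈ A n := by rw [hn]; exact hx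
    have hy' : y ∉ A n := by rw [hn]; exact hy
    simp only [hx', hy', decide_true, decide_false] at h1
    exact absurd h1 (by decide)
  · intro z U hU hz
    by_contra hcon
    push Not at hcon
    apply h z
    have h1 : U = {z} := by
      ext y
      exact ⟨fun hy => hcon y hy, fun hy => by rw [mem_singleton_iff.1 hy]; exact hz⟩
    unfold Io
    rw [← h1]
    exact hU

theorem t_STB : S_NT → S_N2 → S_STB := by
  intro hNT hN2 Z _ _ _ _ _ h
  rcases h with ⟨hne, hio⟩ | h | h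
  · have hl : ∀ x : Z, x ∈ L2 Z := by
      intro x U hU hx
      by_contra hcon
      push Not at hcon
      apply hio x
      have h1 : U = {x} := by
        ext y
        constructor
        · intro hy
          by_contra hyx
          exact hio y (hcon y hy hyx)
        · intro hy
          rw [mem_singleton_iff.1 hy]
          exact hx
      unfold Io
      rw [← h1]
      exact hU
    refine ⟨?_, ?_, ?_⟩
    · obtain ⟨x⟩ := hne
      exact ⟨x, hl x⟩
    · intro x hx U hU hxU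
      obtain ⟨y, hy, hyx, -⟩ := hx U hU hxU
      exact ⟨y, hy, hyx, hl y⟩
    · rintro A hA ⟨x, hxA, -⟩
      have : CompactSpace A := isCompact_iff_compactSpace.1 hA.isClosed.isCompact
      have : Nonempty A := ⟨⟨x, hxA⟩⟩
      obtain ⟨e1⟩ := cantor_of A (fun y hy => hio y.1 ((io_sub hA.isOpen y).1 hy))
      obtain ⟨e2⟩ := cantor_of Z hio
      exact ⟨e1.trans e2.symm⟩
  · refine ⟨?_, ?_, ?_⟩
    · obtain ⟨x, hx⟩ := h.ne
      exact ⟨x, h.perf x hx⟩
    · intro x hx U hU hxU
      obtain ⟨y, hy, hyx, hyi⟩ := hx U hU hxU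
      exact ⟨y, hy, hyx, h.perf y hyi⟩
    · intro A hA hne
      have : CompactSpace A := isCompact_iff_compactSpace.1 hA.isClosed.isCompact
      exact hNT A Z (nt_sub h hA.isOpen hne) h
  · refine ⟨h.ne, h.perf, ?_⟩
    intro A hA hne
    have : CompactSpace A := isCompact_iff_compactSpace.1 hA.isClosed.isCompact
    exact hN2 A Z (nt2_sub h hA.isOpen hne) h

end Pool.Agent.H155.KK
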